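import Pool.Agent.Lib.MP_c80ac4_an.DP.Main
import Mathlib.Topology.MetricSpace.Closeds
import Mathlib.Analysis.Complex.Circle

/-! # The complexity of the family of all boundary sets -/

namespace Forcing.HY

open Forcing.Ratio TopologicalSpace Metric Filter Topology

/-- A compact subset of the circle as a subset of the plane. -/
def im (K : NonemptyCompacts Circle) : Set ℂ := (fun z : Circle => (z : ℂ)) '' (K : Set Circle)

theorem im_subset (K : NonemptyCompacts Circle) : im K ⊆ sphere 0 1 := by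
  rintro _ ⟨z, -, rfl⟩
  simp

theorem norm_pow_sub_le {z w : ℂ} (hz : ‖z‖ = 1) (hw : ‖w‖ = 1) (n : ℕ) :
    ‖z ^ n - w ^ n‖ ≤ n * ‖z - w‖ := by
  induction n with
  | zero => simp
  | succ n ih =>
    have h1 : z ^ (n + 1) - w ^ (n + 1) = z ^ n * (z - w) + (z ^ n - w ^ n) * w := by ring
    rw [h1]
    refine (norm_add_le _ _).trans ?_
    rw [norm_mul, norm_mul, norm_pow, hz, hw, one_pow, one_mul, mul_one]
    push_cast
    linarith

theorem isClosed_sidonIneq (q : ℝ) (N : ℕ) (C : ℝ) (hC : 0 ≤ C) :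
    IsClosed {K : NonemptyCompacts Circle | SidonIneq q N C (im K)} := by
  rw [← isSeqClosed_iff_isClosed]
  intro K K₀ hK hlim s c M hs hM hb
  set L : ℝ := ∑ n ∈ s, ‖c n‖ * n with hL
  have hL0 : 0 ≤ L := Finset.sum_nonneg fun n _ => by positivity
  have h1 : ∀ δ : ℝ, 0 < δ → ∑ n ∈ s, ‖c n‖ ≤ C * (M + L * δ) := by
    intro δ hδ
    obtain ⟨j, hj⟩ := (Metric.tendsto_atTop.1 hlim δ hδ)
    have h2 := hj j le_rfl
    refine hK j s c (M + L * δ) hs (by positivity) ?_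
    rintro _ ⟨z, hz, rfl⟩
    have h3 : hausdorffDist (K j : Set Circle) (K₀ : Set Circle) < δ := h2
    obtain ⟨w, hw, hd⟩ := exists_dist_lt_of_hausdorffDist_lt hz h3
      (hausdorffEDist_ne_top_of_nonempty_of_bounded (K j).nonempty K₀.nonempty
        (K j).isCompact.isBounded K₀.isCompact.isBounded)
    have h4 := hb (w : ℂ) ⟨w, hw, rfl⟩
    have h5 : ‖∑ n ∈ s, c n * (z : ℂ) ^ n - ∑ n ∈ s, c n * (w : ℂ) ^ n‖ ≤ L * δ := by
      rw [← Finset.sum_sub_distrib, hL, Finset.sum_mul]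
      refine (norm_sum_le _ _).trans (Finset.sum_le_sum fun n _ => ?_)
      rw [← mul_sub, norm_mul]
      have h6 := norm_pow_sub_le (z := (z : ℂ)) (w := (w : ℂ)) (Circle.norm_coe z)
        (Circle.norm_coe w) n
      have h7 : ‖(z : ℂ) - w‖ ≤ δ := by
        rw [← dist_eq_norm]
        exact hd.le
      calc ‖c n‖ * ‖(z : ℂ) ^ n - (w : ℂ) ^ n‖ ≤ ‖c n‖ * (n * δ) := by gcongr; exact h6.trans (by gcongr)
        _ = ‖c n‖ * n * δ := by ring
    calc ‖∑ n ∈ s, c n * (z : ℂ) ^ n‖ = ‖∑ n ∈ s, c n * (w : ℂ) ^ n +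
          (∑ n ∈ s, c n * (z : ℂ) ^ n - ∑ n ∈ s, c n * (w : ℂ) ^ n)‖ := by congr 1; ring
      _ ≤ _ := norm_add_le _ _
      _ ≤ M + L * δ := add_le_add h4 h5
  have h2 : Tendsto (fun δ : ℝ => C * (M + L * δ)) (𝓝[>] 0) (𝓝 (C * (M + L * 0))) := by
    refine (Continuous.tendsto ?_ 0).mono_left nhdsWithin_le_nhds
    fun_prop
  rw [mul_zero, add_zero] at h2
  refine ge_of_tendsto h2 ?_
  filter_upwards [self_mem_nhdsWithin] with δ hδ
  exact h1 δ hδ

/-- the closed sets of the representation -/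
def F (i j : ℕ) : Set (NonemptyCompacts Circle) :=
  {K | SidonIneq (1 + 1 / ((i : ℝ) + 1)) j j (im K)}

theorem isClosed_F (i j : ℕ) : IsClosed (F i j) := isClosed_sidonIneq _ _ _ (Nat.cast_nonneg j)

theorem sidon_eq : {K : NonemptyCompacts Circle | SidonOn (im K)} = ⋂ i, ⋃ j, F i j := by
  ext K
  simp only [Set.mem_ofPred_eq, Set.mem_iInter, Set.mem_iUnion, F]
  constructor
  · intro h i
    have hpos : (0 : ℝ) < 1 / ((i : ℝ) + 1) := by positivity
    obtain ⟨N, C, h1⟩ := h (1 + 1 / ((i : ℝ) + 1)) (by linarith)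
    refine ⟨max N ⌈C⌉₊, (h1.mono_N (le_max_left _ _)).mono_const ?_⟩
    exact (Nat.le_ceil C).trans (by exact_mod_cast le_max_right _ _)
  · intro h q hq
    obtain ⟨i, hi⟩ := exists_nat_gt (1 / (q - 1))
    obtain ⟨j, hj⟩ := h i
    refine ⟨j, j, fun s c M hs hM hb => hj s c M ?_ hM hb⟩
    refine HS.lacSet_mono_ratio ?_ hs
    have h1 : 0 < q - 1 := by linarith
    have h2 : 1 / ((i : ℝ) + 1) ≤ q - 1 := by
      rw [div_lt_iff₀ h1] at hi
      rw [div_le_iff₀ (by positivity)]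
      nlinarith
    linarith

/-- every closed set is approximated by finite sets of roots of unity -/
theorem dense_roots (K : NonemptyCompacts Circle) {δ : ℝ} (hδ : 0 < δ) :
    ∃ (b : ℕ) (K' : NonemptyCompacts Circle), 0 < b ∧ dist K' K < δ ∧
      ∀ z ∈ (K' : Set Circle), z ^ b = 1 := by
  have hpi := Real.pi_pos
  obtain ⟨b, hb⟩ := exists_nat_gt (2 * Real.pi / δ)
  have hb0 : (0 : ℝ) < b := lt_trans (by positivity) hb
  have hbN : 0 < b := by exact_mod_cast hb0
  have hbδ : Real.pi / b ≤ δ / 2 := by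
    rw [div_lt_iff₀ hδ] at hb
    rw [div_le_iff₀ hb0]
    linarith
  -- roots near points
  have hnear : ∀ z : Circle, ∃ ζ : Circle, ζ ^ b = 1 ∧ dist z ζ ≤ δ / 2 := by
    intro z
    obtain ⟨x, hx⟩ := HM.exists_e (Circle.norm_coe z)
    set a : ℤ := round (x * b) with ha
    refine ⟨⟨e (a / b), mem_sphere_zero_iff_norm.2 (norm_e _)⟩, ?_, ?_⟩
    · apply Circle.ext
      show (e (a / b)) ^ b = ((1 : Circle) : ℂ)
      rw [e_pow, mul_div_cancel₀ _ hb0.ne', e_int]
      simp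
    · show dist (z : ℂ) (e (a / b)) ≤ δ / 2
      rw [← hx, dist_eq_norm]
      refine (e_sub_le _ _).trans ?_
      have h1 : |x - a / b| ≤ 1 / (2 * b) := by
        have h2 := abs_sub_round (x * b)
        have h3 : x - a / b = (x * b - a) / b := by field_simp
        rw [h3, abs_div, abs_of_pos hb0, div_le_div_iff₀ hb0 (by positivity)]
        calc |x * b - a| * (2 * b) ≤ 1 / 2 * (2 * b) := by gcongr
          _ = 1 * b := by ring
      calc 2 * Real.pi * |x - a / b| ≤ 2 * Real.pi * (1 / (2 * b)) := by gcongr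
        _ = Real.pi / b := by field_simp
        _ ≤ δ / 2 := hbδ
  set A : Set Circle := {ζ | ζ ^ b = 1} ∩ {ζ | infDist ζ (K : Set Circle) ≤ δ / 2} with hA
  have hAcl : IsClosed A := by
    refine IsClosed.inter (isClosed_eq (by fun_prop) continuous_const)
      (isClosed_le (continuous_infDist_pt _) continuous_const)
  have hmem : ∀ z ∈ (K : Set Circle), ∃ ζ ∈ A, dist z ζ ≤ δ / 2 := by
    intro z hz
    obtain ⟨ζ, h1, h2⟩ := hnear z
    refine ⟨ζ, ⟨h1, ?_⟩, h2⟩
    refine (infDist_le_dist_of_mem hz).trans ?_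
    rw [dist_comm]
    exact h2
  obtain ⟨z₀, hz₀⟩ := K.nonempty
  obtain ⟨ζ₀, hζ₀, -⟩ := hmem z₀ hz₀
  refine ⟨b, ⟨⟨A, hAcl.isCompact⟩, ⟨ζ₀, hζ₀⟩⟩, hbN, ?_, fun z hz => hz.1⟩
  have h1 : hausdorffDist A (K : Set Circle) ≤ δ / 2 := by
    refine hausdorffDist_le_of_mem_dist (by positivity) ?_ ?_
    · intro ζ hζ
      obtain ⟨z, hz, h2⟩ := K.isCompact.exists_infDist_eq_dist K.nonempty ζ
      refine ⟨z, hz, ?_⟩
      rw [← h2]
      exact hζ.2
    · intro z hz
      exact hmem z hz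
  show hausdorffDist A (K : Set Circle) < δ
  linarith

/-- the sets with a power near one -/
def U (n : ℕ) : Set (NonemptyCompacts Circle) := {K | ∀ z ∈ (K : Set Circle), ‖(z : ℂ) ^ n - 1‖ < 1}

theorem isOpen_U (n : ℕ) : IsOpen (U n) := by
  rw [Metric.isOpen_iff]
  intro K hK
  obtain ⟨z₀, hz₀, hmax⟩ := K.isCompact.exists_isMaxOn K.nonempty
    (f := fun z : Circle => ‖(z : ℂ) ^ n - 1‖) (Continuous.continuousOn (by fun_prop))
  set r : ℝ := ‖(z₀ : ℂ) ^ n - 1‖ with hr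
  have hr1 : r < 1 := hK z₀ hz₀
  refine ⟨(1 - r) / (n + 1), by have : 0 < 1 - r := by linarith
                                positivity, fun K' hK' z hz => ?_⟩
  have h3 : hausdorffDist (K' : Set Circle) (K : Set Circle) < (1 - r) / (n + 1) := hK'
  obtain ⟨w, hw, hd⟩ := exists_dist_lt_of_hausdorffDist_lt hz h3
    (hausdorffEDist_ne_top_of_nonempty_of_bounded K'.nonempty K.nonempty
      K'.isCompact.isBounded K.isCompact.isBounded)
  have h4 : ‖(w : ℂ) ^ n - 1‖ ≤ r := hmax hw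
  have h5 := norm_pow_sub_le (z := (z : ℂ)) (w := (w : ℂ)) (Circle.norm_coe z)
    (Circle.norm_coe w) n
  have h6 : ‖(z : ℂ) - w‖ < (1 - r) / (n + 1) := by
    rw [← dist_eq_norm]
    exact hd
  have h7 : (n : ℝ) * ‖(z : ℂ) - w‖ < 1 - r := by
    rw [lt_div_iff₀ (by positivity)] at h6
    have h8 : 0 ≤ ‖(z : ℂ) - w‖ := norm_nonneg _
    rcases h8.eq_or_lt with h9 | h9
    · rw [← h9, mul_zero]
      linarith
    · nlinarith
  have h8 : (z : ℂ) ^ n - 1 = ((z : ℂ) ^ n - (w : ℂ) ^ n) + ((w : ℂ) ^ n - 1) := by ring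
  rw [h8]
  refine (norm_add_le _ _).trans_lt ?_
  linarith

theorem not_sidon_of_U {K : NonemptyCompacts Circle} (h : ∀ N, ∃ n ≥ N, K ∈ U n) :
    ¬ SidonOn (im K) := by
  refine HS.not_sidonOn_of_hset (im_subset K) (z₀ := -1) (by simp) one_pos fun N => ?_
  obtain ⟨n, hn, hK⟩ := h N
  refine ⟨n, hn, ?_⟩
  rintro _ ⟨z, hz, rfl⟩
  have h1 := hK z hz
  have h2 : ‖(2 : ℂ)‖ ≤ ‖(z : ℂ) ^ n - -1‖ + ‖(z : ℂ) ^ n - 1‖ := by
    have h3 : (2 : ℂ) = ((z : ℂ) ^ n - -1) - ((z : ℂ) ^ n - 1) := by ring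
    rw [h3]
    exact norm_sub_le _ _
  have h4 : ‖(2 : ℂ)‖ = 2 := by simp
  rw [h4] at h2
  simp only
  linarith

theorem meagre_sidon : IsMeagre {K : NonemptyCompacts Circle | SidonOn (im K)} := by
  have h1 : ∀ N : ℕ, (⋃ n ≥ N, U n) ∈ residual (NonemptyCompacts Circle) := by
    intro N
    refine residual_of_dense_open (isOpen_biUnion fun n _ => isOpen_U n) ?_
    rw [Metric.dense_iff]
    intro K δ hδ
    obtain ⟨b, K', hb, hd, hK'⟩ := dense_roots K hδ
    refine ⟨K', Metric.mem_ball.2 hd, ?_⟩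
    simp only [Set.mem_iUnion]
    refine ⟨b * N, Nat.le_mul_of_pos_left N hb, fun z hz => ?_⟩
    have h2 : ((z ^ b : Circle) : ℂ) = 1 := by rw [hK' z hz]; simp
    have h3 : (z : ℂ) ^ b = 1 := by simpa using h2
    rw [pow_mul, h3, one_pow, sub_self, norm_zero]
    exact one_pos
  unfold IsMeagre
  refine Filter.mem_of_superset (countable_iInter_mem.2 h1) ?_
  intro K hK hS
  rw [Set.mem_iInter] at hK
  refine not_sidon_of_U (K := K) (fun N => ?_) hS
  have := hK N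
  simp only [Set.mem_iUnion] at this
  obtain ⟨n, hn, h⟩ := this
  exact ⟨n, hn, h⟩

theorem dense_sidon : Dense {K : NonemptyCompacts Circle | SidonOn (im K)} := by
  rw [Metric.dense_iff]
  intro K δ hδ
  set A : Set Circle := cthickening (δ / 2) (K : Set Circle) with hA
  have hAcl : IsClosed A := isClosed_cthickening
  have hsub : (K : Set Circle) ⊆ A := self_subset_cthickening _
  obtain ⟨z₀, hz₀⟩ := K.nonempty
  refine ⟨⟨⟨A, hAcl.isCompact⟩, ⟨z₀, hsub hz₀⟩⟩, ?_, ?_⟩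
  · rw [Metric.mem_ball]
    have h1 : hausdorffDist A (K : Set Circle) ≤ δ / 2 := by
      refine hausdorffDist_le_of_mem_dist (by positivity) ?_ ?_
      · intro ζ hζ
        have h2 : ζ ∈ ⋃ x ∈ (K : Set Circle), closedBall x (δ / 2) := by
          rw [← K.isCompact.cthickening_eq_biUnion_closedBall (by positivity)]
          exact hζ
        simp only [Set.mem_iUnion, mem_closedBall, exists_prop] at h2
        exact h2
      · intro z hz
        exact ⟨z, hsub hz, by rw [dist_self]; positivity⟩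
    show hausdorffDist A (K : Set Circle) < δ
    linarith
  · refine DP.sidonOn_of_hasArc ⟨(z₀ : ℂ), Circle.norm_coe z₀, δ / 2, by positivity,
      fun z hz hd => ?_⟩
    refine ⟨⟨z, mem_sphere_zero_iff_norm.2 hz⟩, ?_, rfl⟩
    refine mem_cthickening_of_dist_le _ z₀ _ _ hz₀ ?_
    show dist z (z₀ : ℂ) ≤ δ / 2
    rw [dist_eq_norm]
    exact hd.le

end Forcing.HY
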